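import Mathlib
import Pool.Agent.Helper24.Br.Inj

/-! Injective holomorphic functions: open images and holomorphic inverses. -/

set_option autoImplicit false
open Set Metric Filter Topology Complex

namespace Pool.Agent.Helper15.CK

/-- the image of an open set under an injective holomorphic function is open -/
theorem nhds_image {f : ℂ → ℂ} {U : Set ℂ} (hU : IsOpen U) (hf : DifferentiableOn ℂ f U)
    (hinj : InjOn f U) {z : ℂ} (hz : z ∈ U) : f '' U ∈ 𝓝 (f z) := by
  have hd : deriv f z ≠ 0 := Pool.Agent.Helper24.Br.deriv_ne_of_inj hU hf hinj hz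
  have ha : AnalyticAt ℂ f z := hf.analyticAt (hU.mem_nhds hz)
  rw [← ha.hasStrictDerivAt.map_nhds_eq hd]
  exact image_mem_map (hU.mem_nhds hz)

theorem isOpen_image {f : ℂ → ℂ} {U V : Set ℂ} (hf : DifferentiableOn ℂ f U)
    (hinj : InjOn f U) (hV : IsOpen V) (hVU : V ⊆ U) : IsOpen (f '' V) := by
  rw [isOpen_iff_mem_nhds]
  rintro _ ⟨z, hz, rfl⟩
  exact nhds_image hV (hf.mono hVU) (hinj.mono hVU) hz

/-- the inverse of an injective holomorphic function is holomorphic -/
theorem exists_inverse {U : Set ℂ} (hUo : IsOpen U) {f : ℂ → ℂ} (hf : DifferentiableOn ℂ f U)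
    (hfi : InjOn f U) :
    ∃ g : ℂ → ℂ, DifferentiableOn ℂ g (f '' U) ∧ (∀ z ∈ U, g (f z) = z) ∧
      (∀ w ∈ f '' U, g w ∈ U ∧ f (g w) = w) ∧
      ∀ z ∈ U, HasDerivAt g (deriv f z)⁻¹ (f z) := by
  classical
  have hleft : ∀ z ∈ U, Function.invFunOn f U (f z) = z := fun z hz => hfi.leftInvOn_invFunOn hz
  have hright : ∀ w ∈ f '' U, Function.invFunOn f U w ∈ U ∧ f (Function.invFunOn f U w) = w :=
    fun w hw => ⟨Function.invFunOn_mem hw, Function.invFunOn_eq hw⟩
  have hcont : ∀ z ∈ U, ContinuousAt (Function.invFunOn f U) (f z) := by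
    intro z hz
    rw [ContinuousAt, hleft z hz]
    intro V hV
    rw [mem_map]
    have hVU : V ∩ U ∈ 𝓝 z := inter_mem hV (hUo.mem_nhds hz)
    obtain ⟨W, hWs, hWo, hzW⟩ := _root_.mem_nhds_iff.mp hVU
    have h1 : f '' W ∈ 𝓝 (f z) :=
      (isOpen_image hf hfi hWo (fun x hx => (hWs hx).2)).mem_nhds ⟨z, hzW, rfl⟩
    refine mem_of_superset h1 ?_
    rintro _ ⟨x, hx, rfl⟩
    simp only [mem_preimage]
    rw [hleft x (hWs hx).2]
    exact (hWs hx).1
  have hder : ∀ z ∈ U, HasDerivAt (Function.invFunOn f U) (deriv f z)⁻¹ (f z) := by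
    intro z hz
    have hd : deriv f z ≠ 0 := Pool.Agent.Helper24.Br.deriv_ne_of_inj hUo hf hfi hz
    apply HasDerivAt.of_local_left_inverse (f := f) (hcont z hz)
    · rw [hleft z hz]
      exact (hf.differentiableAt (hUo.mem_nhds hz)).hasDerivAt
    · exact hd
    · filter_upwards [nhds_image hUo hf hfi hz] with w hw
      exact (hright w hw).2
  refine ⟨Function.invFunOn f U, ?_, hleft, hright, hder⟩
  rintro _ ⟨z, hz, rfl⟩
  exact (hder z hz).differentiableAt.differentiableWithinAt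

end Pool.Agent.Helper15.CK
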