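import Mathlib
import Pool.Agent.Helper14.CK.Riemann
import Pool.Agent.Helper15.CK.Inv

/-! Riemann mapping theorem for exterior domains: maps `κ / z + F z` of the punctured disc. -/

set_option autoImplicit false
open Set Metric Filter Topology Complex

namespace Pool.Agent.Helper15.CK

open Pool.Agent.Helper14.CK (Sq riemann_map)

/-- square root property of an exterior domain: functions without zeros with a nonzero limit at
infinity have a square root -/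
def SqExt (U : Set ℂ) : Prop :=
  ∀ h : ℂ → ℂ, DifferentiableOn ℂ h U → (∀ z ∈ U, h z ≠ 0) →
    (∃ L : ℂ, L ≠ 0 ∧ Tendsto h (cocompact ℂ) (𝓝 L)) →
    ∃ g : ℂ → ℂ, DifferentiableOn ℂ g U ∧ ∀ z ∈ U, g z ^ 2 = h z

/-- the punctured unit disc -/
def pdisc : Set ℂ := ball 0 1 \ {0}

theorem pdisc_mem {z : ℂ} : z ∈ pdisc ↔ ‖z‖ < 1 ∧ z ≠ 0 := by
  simp [pdisc]

theorem isOpen_pdisc : IsOpen pdisc := isOpen_ball.sdiff isClosed_singleton

/-- the inverted domain -/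
def invDom (c : ℂ) (U : Set ℂ) : Set ℂ := {w | w = 0 ∨ w⁻¹ + c ∈ U}

theorem tendsto_inv_coc {c : ℂ} : Tendsto (fun w : ℂ => w⁻¹ + c) (𝓝[≠] 0) (cocompact ℂ) := by
  have h1 : Tendsto (fun w : ℂ => w⁻¹) (𝓝[≠] 0) (cocompact ℂ) := by
    have := Filter.tendsto_inv₀_nhdsNE_zero (α := ℂ)
    rwa [Metric.cobounded_eq_cocompact] at this
  exact (Homeomorph.addRight c).isClosedEmbedding.tendsto_cocompact.comp h1

theorem tendsto_coc_inv {c : ℂ} : Tendsto (fun u : ℂ => (u - c)⁻¹) (cocompact ℂ) (𝓝[≠] 0) := by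
  have h1 : Tendsto (fun u : ℂ => u - c) (cocompact ℂ) (cocompact ℂ) := by
    have := (Homeomorph.addRight (-c)).isClosedEmbedding.tendsto_cocompact
    simpa [sub_eq_add_neg] using this
  have h2 : Tendsto (fun w : ℂ => w⁻¹) (cocompact ℂ) (𝓝[≠] 0) := by
    have := Filter.tendsto_inv₀_cobounded' (α := ℂ)
    rwa [Metric.cobounded_eq_cocompact] at this
  exact h2.comp h1

theorem mem_invDom_ne {c : ℂ} {U : Set ℂ} {w : ℂ} (hw : w ∈ invDom c U) (h0 : w ≠ 0) :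
    w⁻¹ + c ∈ U := by
  rcases hw with h | h
  · exact absurd h h0
  · exact h

theorem invDom_nhds_zero {c : ℂ} {U : Set ℂ} (hU : U ∈ cocompact ℂ) : invDom c U ∈ 𝓝 (0:ℂ) := by
  have h1 : ∀ᶠ w in 𝓝[≠] (0:ℂ), w⁻¹ + c ∈ U := tendsto_inv_coc hU
  rw [eventually_nhdsWithin_iff] at h1
  filter_upwards [h1] with w hw
  by_cases h : w = 0
  · exact Or.inl h
  · exact Or.inr (hw h)

theorem isOpen_invDom {c : ℂ} {U : Set ℂ} (hUo : IsOpen U) (hU : U ∈ cocompact ℂ) :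
    IsOpen (invDom c U) := by
  rw [isOpen_iff_mem_nhds]
  intro w hw
  by_cases h : w = 0
  · rw [h]
    exact invDom_nhds_zero hU
  · have h1 : ContinuousAt (fun w : ℂ => w⁻¹ + c) w := (continuousAt_inv₀ h).add continuousAt_const
    have h2 := h1.preimage_mem_nhds (hUo.mem_nhds (mem_invDom_ne hw h))
    filter_upwards [h2] with v hv
    exact Or.inr hv

theorem isPreconnected_invDom {c : ℂ} {U : Set ℂ} (hc : c ∉ U) (hUc : IsPreconnected U)
    (hU : U ∈ cocompact ℂ) : IsPreconnected (invDom c U) := by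
  have hcont : ContinuousOn (fun u : ℂ => (u - c)⁻¹) U := by
    apply ContinuousOn.inv₀ (continuousOn_id.sub continuousOn_const)
    intro u hu h
    have : u = c := sub_eq_zero.mp h
    exact hc (this ▸ hu)
  have h1 := hUc.image _ hcont
  apply h1.subset_closure
  · rintro _ ⟨u, hu, rfl⟩
    right
    simpa using hu
  · intro w hw
    by_cases h : w = 0
    · rw [h, _root_.mem_closure_iff_nhds]
      intro s hs
      have h2 := (tendsto_coc_inv (c := c)).mono_right nhdsWithin_le_nhds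
      have h3 : ∀ᶠ u in cocompact ℂ, (u - c)⁻¹ ∈ s := h2 hs
      obtain ⟨u, hu1, hu2⟩ := (h3.and hU).exists
      exact ⟨_, hu1, u, hu2, rfl⟩
    · apply subset_closure
      refine ⟨w⁻¹ + c, mem_invDom_ne hw h, ?_⟩
      simp

theorem sq_invDom {c : ℂ} {U : Set ℂ} (hc : c ∉ U) (hUo : IsOpen U) (hU : U ∈ cocompact ℂ)
    (hsq : SqExt U) : Sq (invDom c U) := by
  classical
  intro h hh hhne
  have hW0 : invDom c U ∈ 𝓝 (0:ℂ) := invDom_nhds_zero hU
  have hmapU : ∀ u ∈ U, (u - c)⁻¹ ∈ invDom c U := by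
    intro u hu
    right
    simpa using hu
  have hne : ∀ u ∈ U, u - c ≠ 0 := by
    intro u hu h
    have : u = c := by linear_combination h
    exact hc (this ▸ hu)
  obtain ⟨g, hg, hg2⟩ := hsq (fun u => h (u - c)⁻¹) (by
      apply hh.comp ((differentiableOn_id.sub_const c).inv hne)
      intro u hu
      exact hmapU u hu) (fun u hu => hhne _ (hmapU u hu)) (by
      refine ⟨h 0, hhne 0 (Or.inl rfl), ?_⟩
      have h1 : ContinuousAt h 0 := (hh.differentiableAt hW0).continuousAt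
      exact h1.tendsto.comp ((tendsto_coc_inv (c := c)).mono_right nhdsWithin_le_nhds))
  obtain ⟨k, hk⟩ : ∃ k : ℂ → ℂ, k = fun w => g (w⁻¹ + c) := ⟨_, rfl⟩
  have hkd : DifferentiableOn ℂ k (invDom c U \ {0}) := by
    rw [hk]
    apply hg.comp
    · apply DifferentiableOn.add_const
      apply DifferentiableOn.inv differentiableOn_id
      intro w hw
      exact hw.2
    · intro w hw
      exact mem_invDom_ne hw.1 hw.2
  have hk2 : ∀ w ∈ invDom c U, w ≠ 0 → k w ^ 2 = h w := by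
    intro w hw hw0
    rw [hk]
    simp only
    rw [hg2 _ (mem_invDom_ne hw hw0)]
    simp
  -- bounded near zero
  have hlim : ContinuousAt h 0 := (hh.differentiableAt hW0).continuousAt
  have hbd : ∀ᶠ w in 𝓝 (0:ℂ), ‖h w‖ < ‖h 0‖ + 1 := by
    have := hlim.norm.eventually_lt (continuousAt_const (y := ‖h 0‖ + 1)) (by simp)
    exact this
  obtain ⟨r, hr, hrb⟩ := Metric.nhds_basis_ball.mem_iff.mp (inter_mem hW0 hbd)
  have hupd := Complex.differentiableOn_update_limUnder_of_bddAbove (f := k) (s := ball 0 r) (c := 0)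
    (ball_mem_nhds 0 hr) (hkd.mono (by
      intro w hw
      exact ⟨(hrb hw.1).1, hw.2⟩)) (by
      refine ⟨‖h 0‖ + 1, ?_⟩
      rintro _ ⟨w, hw, rfl⟩
      simp only [Function.comp_apply]
      have h1 := hk2 w (hrb hw.1).1 hw.2
      have h2 := (hrb hw.1).2
      simp only [mem_ofPred_eq] at h2
      rw [← h1, norm_pow] at h2
      by_contra hcon
      push Not at hcon
      nlinarith [norm_nonneg (h 0), norm_nonneg (k w)])
  set K := Function.update k 0 (limUnder (𝓝[≠] 0) k) with hKd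
  have hKk : ∀ w, w ≠ 0 → K w = k w := by
    intro w hw
    rw [hKd, Function.update_of_ne hw]
  refine ⟨K, ?_, ?_⟩
  · intro w hw
    by_cases h0 : w = 0
    · rw [h0]
      exact (hupd.differentiableAt (ball_mem_nhds 0 hr)).differentiableWithinAt
    · have hwo : invDom c U \ {0} ∈ 𝓝 w :=
        ((isOpen_invDom hUo hU).sdiff isClosed_singleton).mem_nhds ⟨hw, h0⟩
      have h1 := hkd.differentiableAt hwo
      have h2 : K =ᶠ[𝓝 w] k := by
        filter_upwards [isOpen_ne.mem_nhds h0] with v hv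
        exact hKk v hv
      exact (h1.congr_of_eventuallyEq h2).differentiableWithinAt
  · intro w hw
    by_cases h0 : w = 0
    · rw [h0]
      have hKc : ContinuousAt K 0 := (hupd.differentiableAt (ball_mem_nhds 0 hr)).continuousAt
      have h1 : Tendsto (fun w => K w ^ 2) (𝓝[≠] 0) (𝓝 (K 0 ^ 2)) :=
        (hKc.pow 2).tendsto.mono_left nhdsWithin_le_nhds
      have h2 : Tendsto (fun w => K w ^ 2) (𝓝[≠] 0) (𝓝 (h 0)) := by
        refine (hlim.tendsto.mono_left nhdsWithin_le_nhds).congr' ?_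
        have h3 : ∀ᶠ w in 𝓝[≠] (0:ℂ), w ∈ invDom c U := nhdsWithin_le_nhds hW0
        filter_upwards [h3, self_mem_nhdsWithin] with v hv hv0
        rw [hKk v hv0, hk2 v hv hv0]
      exact tendsto_nhds_unique h1 h2
    · rw [hKk w h0, hk2 w hw h0]

/-- a zero free multiple of `z` -/
theorem inv_form {g : ℂ → ℂ} (hg : DifferentiableOn ℂ g (ball 0 1)) (hinj : InjOn g (ball 0 1))
    (h0 : g 0 = 0) : ∃ F : ℂ → ℂ, DifferentiableOn ℂ F (ball 0 1) ∧
      ∀ z ∈ pdisc, (g z)⁻¹ = (deriv g 0)⁻¹ / z + F z := by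
  have hb0 : ball (0:ℂ) 1 ∈ 𝓝 (0:ℂ) := ball_mem_nhds 0 one_pos
  have h0b : (0:ℂ) ∈ ball (0:ℂ) 1 := mem_ball_self one_pos
  have hd : deriv g 0 ≠ 0 := Pool.Agent.Helper24.Br.deriv_ne_of_inj isOpen_ball hg hinj h0b
  have hG : DifferentiableOn ℂ (dslope g 0) (ball 0 1) :=
    (Complex.differentiableOn_dslope hb0).mpr hg
  have hGz : ∀ z, z ≠ 0 → g z = z * dslope g 0 z := by
    intro z hz
    rw [dslope_of_ne _ hz, slope_def_field, h0]
    field_simp
    ring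
  have hG0 : dslope g 0 0 = deriv g 0 := dslope_same _ _
  have hGne : ∀ z ∈ ball (0:ℂ) 1, dslope g 0 z ≠ 0 := by
    intro z hz
    by_cases h : z = 0
    · rw [h, hG0]
      exact hd
    · intro hc
      have h1 := hGz z h
      rw [hc, mul_zero, ← h0] at h1
      exact h (hinj hz h0b h1)
  have hI : DifferentiableOn ℂ (fun z => (dslope g 0 z)⁻¹) (ball 0 1) := hG.inv hGne
  refine ⟨dslope (fun z => (dslope g 0 z)⁻¹) 0, (Complex.differentiableOn_dslope hb0).mpr hI, ?_⟩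
  intro z hz
  rw [pdisc_mem] at hz
  rw [dslope_of_ne _ hz.2, slope_def_field, hG0, hGz z hz.2]
  have h1 := hGne z (by simpa using hz.1)
  field_simp [hz.2]
  ring

/-- **Riemann mapping theorem** for exterior domains -/
theorem riemann_ext {U : Set ℂ} (hUo : IsOpen U) (hUc : IsPreconnected U)
    (hU : U ∈ cocompact ℂ) {c c' : ℂ} (hc : c ∉ U) (hc' : c' ∉ U) (hcc : c ≠ c')
    (hsq : SqExt U) :
    ∃ (κ : ℝ) (F : ℂ → ℂ), 0 < κ ∧ DifferentiableOn ℂ F (ball 0 1) ∧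
      InjOn (fun z => (κ : ℂ) / z + F z) pdisc ∧
      (fun z => (κ : ℂ) / z + F z) '' pdisc = U := by
  have hWU : invDom c U ≠ univ := by
    intro h
    have h1 : (c' - c)⁻¹ ∈ invDom c U := by rw [h]; trivial
    have h2 : (c' - c)⁻¹ ≠ 0 := inv_ne_zero (sub_ne_zero.mpr hcc.symm)
    have h3 := mem_invDom_ne h1 h2
    simp only [inv_inv, sub_add_cancel] at h3
    exact hc' h3
  obtain ⟨-, g, -, -, -, -, hg, hgi, hgs, hg0, -, -, r, hr, -, hgr⟩ := riemann_map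
    (isOpen_invDom hUo hU) (isPreconnected_invDom hc hUc hU) hWU (sq_invDom hc hUo hU hsq)
    (z0 := 0) (Or.inl rfl)
  obtain ⟨F, hF, hFe⟩ := inv_form hg hgi hg0
  have h0b : (0:ℂ) ∈ ball (0:ℂ) 1 := mem_ball_self one_pos
  have hval : ∀ z ∈ pdisc, (r : ℂ) / z + (F z + c) = (g z)⁻¹ + c := by
    intro z hz
    rw [hFe z hz, hgr, Complex.ofReal_inv, inv_inv]
    ring
  have hgne : ∀ z ∈ pdisc, g z ≠ 0 := by
    intro z hz h
    rw [← hg0] at h
    exact hz.2 (hgi hz.1 h0b h)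
  refine ⟨r, fun z => F z + c, hr, hF.add_const c, ?_, ?_⟩
  · intro z hz z' hz' h
    simp only at h
    rw [hval z hz, hval z' hz'] at h
    have h1 : (g z)⁻¹ = (g z')⁻¹ := by linear_combination h
    exact hgi hz.1 hz'.1 (inv_injective h1)
  · apply Subset.antisymm
    · rintro _ ⟨z, hz, rfl⟩
      simp only
      rw [hval z hz]
      have h1 : g z ∈ invDom c U := by
        rw [← hgs]
        exact ⟨z, hz.1, rfl⟩
      exact mem_invDom_ne h1 (hgne z hz)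
    · intro u hu
      have hne : u - c ≠ 0 := by
        intro h
        have : u = c := by linear_combination h
        exact hc (this ▸ hu)
      have h1 : (u - c)⁻¹ ∈ invDom c U := by
        right
        simpa using hu
      rw [← hgs] at h1
      obtain ⟨z, hz, hze⟩ := h1
      have hz0 : z ≠ 0 := by
        intro h
        rw [h, hg0] at hze
        exact inv_ne_zero hne hze.symm
      refine ⟨z, ⟨hz, hz0⟩, ?_⟩
      simp only
      rw [hval z ⟨hz, hz0⟩, hze]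
      simp

/-- **subordination**: if the image of `κ₁ / z + F₁` is contained in the image of the injective map
`κ₂ / z + F₂`, then the first is the second composed with a self map `ω` of the disc -/
theorem sub_ext {κ₁ κ₂ : ℝ} {F₁ F₂ : ℂ → ℂ} (hκ₁ : 0 < κ₁)
    (hF₁ : DifferentiableOn ℂ F₁ (ball 0 1)) (hF₂ : DifferentiableOn ℂ F₂ (ball 0 1))
    (hi₂ : InjOn (fun z => (κ₂ : ℂ) / z + F₂ z) pdisc)
    (hsub : (fun z => (κ₁ : ℂ) / z + F₁ z) '' pdisc ⊆ (fun z => (κ₂ : ℂ) / z + F₂ z) '' pdisc) :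
    ∃ ω : ℂ → ℂ, DifferentiableOn ℂ ω (ball 0 1) ∧ MapsTo ω (ball 0 1) (ball 0 1) ∧ ω 0 = 0 ∧
      MapsTo ω pdisc pdisc ∧ deriv ω 0 = ((κ₂ / κ₁ : ℝ) : ℂ) ∧
      ∀ z ∈ pdisc, (κ₂ : ℂ) / ω z + F₂ (ω z) = (κ₁ : ℂ) / z + F₁ z := by
  classical
  obtain ⟨f₁, hf₁⟩ : ∃ f : ℂ → ℂ, f = fun z => (κ₁ : ℂ) / z + F₁ z := ⟨_, rfl⟩
  obtain ⟨f₂, hf₂⟩ : ∃ f : ℂ → ℂ, f = fun z => (κ₂ : ℂ) / z + F₂ z := ⟨_, rfl⟩
  rw [← hf₁, ← hf₂] at hsub
  rw [← hf₂] at hi₂
  have hd : ∀ (κ : ℝ) (F : ℂ → ℂ), DifferentiableOn ℂ F (ball 0 1) →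
      DifferentiableOn ℂ (fun z => (κ : ℂ) / z + F z) pdisc := by
    intro κ F hF
    apply DifferentiableOn.add
    · apply DifferentiableOn.div (differentiableOn_const _) differentiableOn_id
      intro z hz
      exact hz.2
    · exact hF.mono sdiff_subset
  have hd₁ : DifferentiableOn ℂ f₁ pdisc := by rw [hf₁]; exact hd _ _ hF₁
  have hd₂ : DifferentiableOn ℂ f₂ pdisc := by rw [hf₂]; exact hd _ _ hF₂
  obtain ⟨g, hg, hgl, hgr, -⟩ := exists_inverse isOpen_pdisc hd₂ hi₂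
  have hωd : DifferentiableOn ℂ (fun z => g (f₁ z)) pdisc :=
    hg.comp hd₁ (fun z hz => hsub ⟨z, hz, rfl⟩)
  have hωm : ∀ z ∈ pdisc, g (f₁ z) ∈ pdisc ∧ f₂ (g (f₁ z)) = f₁ z := by
    intro z hz
    exact hgr _ (hsub ⟨z, hz, rfl⟩)
  have hb0 : ball (0:ℂ) 1 ∈ 𝓝 (0:ℂ) := ball_mem_nhds 0 one_pos
  have h0b : (0:ℂ) ∈ ball (0:ℂ) 1 := mem_ball_self one_pos
  have hupd := Complex.differentiableOn_update_limUnder_of_bddAbove (f := fun z => g (f₁ z))
    (s := ball 0 1) (c := 0) hb0 hωd (by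
      refine ⟨1, ?_⟩
      rintro _ ⟨z, hz, rfl⟩
      simp only [Function.comp_apply]
      exact (pdisc_mem.mp (hωm z hz).1).1.le)
  obtain ⟨ω, hω⟩ : ∃ ω : ℂ → ℂ, ω = Function.update (fun z => g (f₁ z)) 0
    (limUnder (𝓝[≠] 0) (fun z => g (f₁ z))) := ⟨_, rfl⟩
  rw [← hω] at hupd
  have hωe : ∀ z, z ≠ 0 → ω z = g (f₁ z) := by
    intro z hz
    rw [hω, Function.update_of_ne hz]
  have hωc : ContinuousAt ω 0 := (hupd.differentiableAt hb0).continuousAt
  have hpd : ∀ᶠ z in 𝓝[≠] (0:ℂ), z ∈ pdisc := by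
    have h1 : ∀ᶠ z in 𝓝[≠] (0:ℂ), z ∈ ball (0:ℂ) 1 := nhdsWithin_le_nhds hb0
    filter_upwards [h1, self_mem_nhdsWithin] with z h2 h3
    exact ⟨h2, h3⟩
  -- `f₁` tends to infinity at zero
  have hf₁inf : Tendsto f₁ (𝓝[≠] 0) (cocompact ℂ) := by
    have h1 : Tendsto (fun z : ℂ => (κ₁ : ℂ) / z) (𝓝[≠] 0) (Bornology.cobounded ℂ) := by
      have h2 := Filter.tendsto_inv₀_nhdsNE_zero (α := ℂ)
      have h3 : Tendsto (fun z : ℂ => (κ₁ : ℂ) * z) (Bornology.cobounded ℂ)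
          (Bornology.cobounded ℂ) :=
        Filter.tendsto_mul_left_cobounded (by exact_mod_cast hκ₁.ne')
      exact h3.comp h2
    rw [← Metric.cobounded_eq_cocompact, ← tendsto_norm_atTop_iff_cobounded] at *
    have h4 : ContinuousAt F₁ 0 := (hF₁.differentiableAt hb0).continuousAt
    have h5 : Tendsto (fun z => -‖F₁ z‖) (𝓝[≠] 0) (𝓝 (-‖F₁ 0‖)) :=
      (h4.norm.neg.tendsto).mono_left nhdsWithin_le_nhds
    have h6 := h1.atTop_add h5
    refine tendsto_atTop_mono ?_ h6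
    intro z
    rw [hf₁]
    simp only
    have h7 := norm_sub_norm_le ((κ₁ : ℂ) / z) (-F₁ z)
    rw [norm_neg, sub_neg_eq_add] at h7
    linarith
  have hωn : ∀ z ∈ pdisc, ‖ω z‖ < 1 ∧ ω z ≠ 0 ∧ f₂ (ω z) = f₁ z := by
    intro z hz
    have h1 := hωm z hz
    rw [← hωe z hz.2] at h1
    have h2 := pdisc_mem.mp h1.1
    exact ⟨h2.1, h2.2, h1.2⟩
  have hωlim : Tendsto ω (𝓝[≠] 0) (𝓝 (ω 0)) := hωc.tendsto.mono_left nhdsWithin_le_nhds
  have hω0le : ‖ω 0‖ ≤ 1 := by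
    refine le_of_tendsto hωlim.norm ?_
    filter_upwards [hpd] with z hz
    exact (hωn z hz).1.le
  have hω0lt : ‖ω 0‖ < 1 := by
    rcases hω0le.lt_or_eq with h | h
    · exact h
    · exfalso
      have hmax : IsLocalMax (norm ∘ ω) 0 := by
        filter_upwards [hb0] with z hz
        simp only [Function.comp_apply]
        rw [h]
        by_cases hz0 : z = 0
        · rw [hz0, h]
        · exact (hωn z ⟨hz, hz0⟩).1.le
      have hev := Complex.eventually_eq_of_isLocalMax_norm (f := ω) (c := 0) (by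
        filter_upwards [isOpen_ball.mem_nhds h0b] with z hz
        exact hupd.differentiableAt (isOpen_ball.mem_nhds hz)) hmax
      have hev2 : ∀ᶠ z in 𝓝[≠] (0:ℂ), ω z = ω 0 := nhdsWithin_le_nhds hev
      obtain ⟨z, hz1, hz2⟩ := (hev2.and hpd).exists
      have h3 := (hωn z hz2).1
      rw [hz1, h] at h3
      exact lt_irrefl _ h3
  have hω0 : ω 0 = 0 := by
    by_contra hne
    have hmem : ω 0 ∈ pdisc := pdisc_mem.mpr ⟨hω0lt, hne⟩
    have h1 : ContinuousAt f₂ (ω 0) := (hd₂.differentiableAt (isOpen_pdisc.mem_nhds hmem)).continuousAt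
    have h2 : Tendsto (fun z => f₂ (ω z)) (𝓝[≠] 0) (𝓝 (f₂ (ω 0))) := h1.tendsto.comp hωlim
    have h3 : Tendsto f₁ (𝓝[≠] 0) (𝓝 (f₂ (ω 0))) := by
      refine h2.congr' ?_
      filter_upwards [hpd] with z hz
      exact (hωn z hz).2.2
    have h4 : Disjoint (𝓝 (f₂ (ω 0))) (cocompact ℂ) := disjoint_nhds_cocompact _
    exact (h3.not_tendsto h4) hf₁inf
  -- the derivative
  have hlimz : ∀ (κ : ℝ) (F : ℂ → ℂ), DifferentiableOn ℂ F (ball 0 1) →
      Tendsto (fun z : ℂ => z * ((κ : ℂ) / z + F z)) (𝓝[≠] 0) (𝓝 (κ : ℂ)) := by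
    intro κ F hF
    have h4 : ContinuousAt F 0 := (hF.differentiableAt hb0).continuousAt
    have h5 : Tendsto (fun z : ℂ => (κ : ℂ) + z * F z) (𝓝 0) (𝓝 ((κ : ℂ) + 0 * F 0)) :=
      tendsto_const_nhds.add (tendsto_id.mul h4.tendsto)
    rw [zero_mul, add_zero] at h5
    refine (h5.mono_left nhdsWithin_le_nhds).congr' ?_
    filter_upwards [self_mem_nhdsWithin] with z hz
    have hz' : z ≠ 0 := hz
    field_simp
  have hωpun : Tendsto ω (𝓝[≠] 0) (𝓝[≠] 0) := by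
    rw [tendsto_nhdsWithin_iff]
    refine ⟨by rw [hω0] at hωlim; exact hωlim, ?_⟩
    filter_upwards [hpd] with z hz
    exact (hωn z hz).2.1
  have hl1 := hlimz κ₁ F₁ hF₁
  have hl2 := (hlimz κ₂ F₂ hF₂).comp hωpun
  have hκ₁' : (κ₁ : ℂ) ≠ 0 := by exact_mod_cast hκ₁.ne'
  have hq := hl2.div hl1 hκ₁'
  have hf₁ne : ∀ᶠ z in 𝓝[≠] (0:ℂ), f₁ z ≠ 0 := by
    have h1 : {(0:ℂ)}ᶜ ∈ cocompact ℂ := (isCompact_singleton).compl_mem_cocompact
    exact hf₁inf h1
  have hsl : Tendsto (slope ω 0) (𝓝[≠] 0) (𝓝 ((κ₂ : ℂ) / (κ₁ : ℂ))) := by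
    refine hq.congr' ?_
    filter_upwards [hpd, hf₁ne] with z hz hne
    have h1 := (hωn z hz).2.2
    rw [hf₂] at h1
    simp only [Function.comp_apply, Pi.div_apply]
    simp only at h1
    rw [h1, slope_def_field, hω0, sub_zero, sub_zero]
    rw [hf₁] at hne ⊢
    simp only at hne ⊢
    rw [mul_div_mul_right _ _ hne]
  have hder : HasDerivAt ω ((κ₂ : ℂ) / (κ₁ : ℂ)) 0 := hasDerivAt_iff_tendsto_slope.mpr hsl
  refine ⟨ω, hupd, ?_, hω0, ?_, ?_, ?_⟩
  · intro z hz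
    by_cases h0 : z = 0
    · rw [h0, hω0]
      exact h0b
    · rw [mem_ball_zero_iff]
      exact (hωn z ⟨hz, h0⟩).1
  · intro z hz
    exact pdisc_mem.mpr ⟨(hωn z hz).1, (hωn z hz).2.1⟩
  · rw [hder.deriv]
    push_cast
    rfl
  · intro z hz
    have h1 := (hωn z hz).2.2
    rw [hf₁, hf₂] at h1
    exact h1

/-- monotonicity of the leading coefficient -/
theorem kappa_le {κ₁ κ₂ : ℝ} {F₁ F₂ : ℂ → ℂ} (hκ₁ : 0 < κ₁) (hκ₂ : 0 < κ₂)
    (hF₁ : DifferentiableOn ℂ F₁ (ball 0 1)) (hF₂ : DifferentiableOn ℂ F₂ (ball 0 1))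
    (hi₂ : InjOn (fun z => (κ₂ : ℂ) / z + F₂ z) pdisc)
    (hsub : (fun z => (κ₁ : ℂ) / z + F₁ z) '' pdisc ⊆ (fun z => (κ₂ : ℂ) / z + F₂ z) '' pdisc) :
    κ₂ ≤ κ₁ := by
  obtain ⟨ω, hω, hm, h0, -, hd, -⟩ := sub_ext hκ₁ hF₁ hF₂ hi₂ hsub
  have h1 := Complex.norm_deriv_le_one_of_mapsTo_ball hω
    (by rw [h0]; exact hm.mono_right ball_subset_closedBall) one_pos
  rw [hd, Complex.norm_real, Real.norm_of_nonneg (by positivity), div_le_one hκ₁] at h1
  exact h1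

/-- equality in the lemma of Schwarz -/
theorem schwarz_eq {ω : ℂ → ℂ} (hω : DifferentiableOn ℂ ω (ball 0 1))
    (hm : MapsTo ω (ball 0 1) (ball 0 1)) (h0 : ω 0 = 0) (hd : deriv ω 0 = 1) :
    ∀ z ∈ ball (0:ℂ) 1, ω z = z := by
  have hb0 : ball (0:ℂ) 1 ∈ 𝓝 (0:ℂ) := ball_mem_nhds 0 one_pos
  have h0b : (0:ℂ) ∈ ball (0:ℂ) 1 := mem_ball_self one_pos
  have hds : DifferentiableOn ℂ (dslope ω 0) (ball 0 1) :=
    (Complex.differentiableOn_dslope hb0).mpr hω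
  have hle : ∀ z ∈ ball (0:ℂ) 1, ‖dslope ω 0 z‖ ≤ 1 := by
    intro z hz
    have := Complex.norm_dslope_le_div_of_mapsTo_ball (R₂ := 1) hω
      (by rw [h0]; exact hm.mono_right ball_subset_closedBall) hz
    simpa using this
  have h1 : dslope ω 0 0 = 1 := by rw [dslope_same, hd]
  have hmax : IsMaxOn (norm ∘ dslope ω 0) (ball 0 1) 0 := by
    intro z hz
    simp only [Function.comp_apply, mem_ofPred_eq]
    rw [h1, norm_one]
    exact hle z hz
  have hc := Complex.eqOn_of_isPreconnected_of_isMaxOn_norm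
    (convex_ball (0:ℂ) 1).isPreconnected isOpen_ball hds h0b hmax
  intro z hz
  by_cases hz0 : z = 0
  · rw [hz0, h0]
  · have h2 := hc hz
    simp only [Function.const_apply] at h2
    rw [h1, dslope_of_ne _ hz0, slope_def_field, h0, sub_zero, sub_zero] at h2
    rw [div_eq_one_iff_eq hz0] at h2
    exact h2

/-- **uniqueness** in the Riemann mapping theorem for exterior domains -/
theorem ext_unique {κ₁ κ₂ : ℝ} {F₁ F₂ : ℂ → ℂ} (hκ₁ : 0 < κ₁) (hκ₂ : 0 < κ₂)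
    (hF₁ : DifferentiableOn ℂ F₁ (ball 0 1)) (hF₂ : DifferentiableOn ℂ F₂ (ball 0 1))
    (hi₁ : InjOn (fun z => (κ₁ : ℂ) / z + F₁ z) pdisc)
    (hi₂ : InjOn (fun z => (κ₂ : ℂ) / z + F₂ z) pdisc)
    (heq : (fun z => (κ₁ : ℂ) / z + F₁ z) '' pdisc = (fun z => (κ₂ : ℂ) / z + F₂ z) '' pdisc) :
    κ₁ = κ₂ ∧ ∀ z ∈ ball (0:ℂ) 1, F₁ z = F₂ z := by
  have h1 := kappa_le hκ₁ hκ₂ hF₁ hF₂ hi₂ heq.subset
  have h2 := kappa_le hκ₂ hκ₁ hF₂ hF₁ hi₁ heq.symm.subset
  have h3 : κ₁ = κ₂ := le_antisymm h2 h1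
  refine ⟨h3, ?_⟩
  obtain ⟨ω, hω, hm, h0, -, hd, hc⟩ := sub_ext hκ₁ hF₁ hF₂ hi₂ heq.subset
  have hd1 : deriv ω 0 = 1 := by
    rw [hd, h3, div_self hκ₂.ne']
    simp
  have hid := schwarz_eq hω hm h0 hd1
  have hpe : ∀ z ∈ pdisc, F₁ z = F₂ z := by
    intro z hz
    have h4 := hc z hz
    rw [hid z hz.1, h3] at h4
    linear_combination -h4
  intro z hz
  by_cases hz0 : z = 0
  · have hb0 : ball (0:ℂ) 1 ∈ 𝓝 (0:ℂ) := ball_mem_nhds 0 one_pos
    have c1 : ContinuousAt F₁ 0 := (hF₁.differentiableAt hb0).continuousAt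
    have c2 : ContinuousAt F₂ 0 := (hF₂.differentiableAt hb0).continuousAt
    have t1 : Tendsto F₁ (𝓝[≠] 0) (𝓝 (F₁ 0)) := c1.tendsto.mono_left nhdsWithin_le_nhds
    have t2 : Tendsto F₂ (𝓝[≠] 0) (𝓝 (F₂ 0)) := c2.tendsto.mono_left nhdsWithin_le_nhds
    have hpd : ∀ᶠ z in 𝓝[≠] (0:ℂ), z ∈ pdisc := by
      have h1 : ∀ᶠ z in 𝓝[≠] (0:ℂ), z ∈ ball (0:ℂ) 1 := nhdsWithin_le_nhds hb0
      filter_upwards [h1, self_mem_nhdsWithin] with z h2 h3
      exact ⟨h2, h3⟩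
    rw [hz0]
    refine tendsto_nhds_unique t1 (t2.congr' ?_)
    filter_upwards [hpd] with z hz
    exact (hpe z hz).symm
  · exact hpe z ⟨hz, hz0⟩

end Pool.Agent.Helper15.CK
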